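import Mathlib
import Pool.Agent.H968.Def
import Pool.Agent.H968.Br10

open MeasureTheory ProbabilityTheory Filter Topology Set Pool.Agent.H968

namespace Pool.Agent.Results.MP_d68443_pr.FourierLimit

universe u

/-- There is a fixed probability law `ν` on the reals, different from the point mass at `0`, such that
for every Gaussian multiplicative chaos `μ` on `[0,1]` with parameter `1/√2` of a centred Gaussian field
with covariance `log (1/|x-y|)`, the variables `(log n)^(1/4) n^(1/4) |c_n|` converge in distribution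
to `ν`. -/
theorem result : ∃ ν : Measure ℝ, ∃ _ : IsProbabilityMeasure ν, ν ≠ Measure.dirac 0 ∧
    ∀ (Ω : Type u) [MeasurableSpace Ω] (P : Measure Ω) [IsProbabilityMeasure P] (X : (ℝ → ℝ) → Ω → ℝ) (ρ : ℝ → ℝ)
      (Xe : ℝ → ℝ → Ω → ℝ) (μ : Ω → Measure ℝ),
      IsLogField P X → IsMollifier ρ → IsChaos P (1 / Real.sqrt 2) X ρ Xe μ →
      TendstoInDistribution (fun (n : ℕ) ω => (Real.log n)^(1/4:ℝ) * (n:ℝ)^(1/4:ℝ) * ‖coef μ n ω‖) atTop
        (fun x : ℝ => x) (fun _ => P) ν :=
  main

end Pool.Agent.Results.MP_d68443_pr.FourierLimit
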